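import Mathlib

/-! Words with first occurrences: periods and the elementary lemmas. -/

namespace Pool.Agent.H249R4.Wd

variable {X : Type*}

/-- The block of length `n` of `x` at `a` also stands at `t`. -/
def Occ (x : ℕ → X) (a n t : ℕ) : Prop := ∀ k < n, x (a + k) = x (t + k)

/-- `a` is the first position of the block of length `n` at `a`. -/
def First (x : ℕ → X) (a n : ℕ) : Prop := ∀ t < a, ¬ Occ x a n t

/-- `x` has period `p` on the interval `[α, β)`. -/
def Per (x : ℕ → X) (p α β : ℕ) : Prop := ∀ t, α ≤ t → t + p < β → x t = x (t + p)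

lemma Per.mono {x : ℕ → X} {p α β α' β' : ℕ} (h : Per x p α β) (h1 : α ≤ α') (h2 : β' ≤ β) :
    Per x p α' β' := fun t ht hb => h t (by omega) (by omega)

lemma Per.add_mul {x : ℕ → X} {p α β : ℕ} (h : Per x p α β) (m : ℕ) :
    ∀ t, α ≤ t → t + m * p < β → x t = x (t + m * p) := by
  induction m with
  | zero => intro t _ _; simp
  | succ m ih =>
    intro t h1 h2
    have h3 : t + (m + 1) * p = (t + m * p) + p := by ring
    rw [h3] at h2 ⊢
    rw [ih t h1 (by omega)]
    exact h _ (by omega) h2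

lemma Per.congr {x : ℕ → X} {p α β : ℕ} (h : Per x p α β) (s t : ℕ) (hs : α ≤ s) (hs' : s < β)
    (ht : α ≤ t) (ht' : t < β) (hst : s ≡ t [MOD p]) : x s = x t := by
  rcases le_total s t with hle | hle
  · obtain ⟨m, hm⟩ := (Nat.modEq_iff_dvd' hle).1 hst
    have : t = s + m * p := by
      rw [Nat.mul_comm] at hm; omega
    rw [this]
    exact h.add_mul m s hs (by omega)
  · obtain ⟨m, hm⟩ := (Nat.modEq_iff_dvd' hle).1 hst.symm
    have : s = t + m * p := by
      rw [Nat.mul_comm] at hm; omega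
    rw [this]
    exact (h.add_mul m t ht (by omega)).symm

lemma exists_rep (P α t : ℕ) (hP : 1 ≤ P) : ∃ s, α ≤ s ∧ s < α + P ∧ s ≡ t [MOD P] := by
  refine ⟨α + ((t + P * α - α) % P), by omega, ?_, ?_⟩
  · have := Nat.mod_lt (t + P * α - α) (by omega : P > 0)
    omega
  · have h1 : α ≤ P * α := Nat.le_mul_of_pos_left α (by omega)
    have h2 : α + ((t + P * α - α) % P) ≡ α + (t + P * α - α) [MOD P] :=
      Nat.ModEq.add_left _ (Nat.mod_modEq _ _)
    have h3 : α + (t + P * α - α) = t + P * α := by omega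
    rw [h3] at h2
    refine h2.trans ?_
    have : t + P * α ≡ t + 0 [MOD P] := Nat.ModEq.add_left _ (by
      rw [Nat.modEq_zero_iff_dvd]; exact Dvd.intro α rfl)
    simpa using this

/-- A divisor of a period which is a period on a window as long as the period is a period. -/
lemma per_extend {x : ℕ → X} {P γ α β α' β' : ℕ} (hP : Per x P α β) (hP1 : 1 ≤ P)
    (hγ : γ ∣ P) (hγ' : Per x γ α' β') (h1 : α ≤ α') (h2 : β' ≤ β) (h3 : α' + P ≤ β') :
    Per x γ α β := by
  intro t ht hb
  obtain ⟨s, hs1, hs2, hs3⟩ := exists_rep P α' t hP1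
  obtain ⟨s', hs1', hs2', hs3'⟩ := exists_rep P α' (t + γ) hP1
  have e1 : x s = x t := hP.congr s t (by omega) (by omega) ht (by omega) hs3
  have e2 : x s' = x (t + γ) := hP.congr s' (t + γ) (by omega) (by omega) (by omega) hb hs3'
  have e3 : s ≡ s' [MOD γ] := by
    have a1 : s ≡ t [MOD γ] := hs3.of_dvd hγ
    have a2 : s' ≡ t + γ [MOD γ] := hs3'.of_dvd hγ
    have a3 : t + γ ≡ t [MOD γ] := by
      simp [Nat.ModEq]
    exact a1.trans (a2.trans a3).symm
  rw [← e1, ← e2]
  exact hγ'.congr s s' hs1 (by omega) hs1' (by omega) e3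

/-- weak Fine–Wilf -/
lemma fine_wilf {x : ℕ → X} : ∀ (m p q α β : ℕ), p + q ≤ m → 1 ≤ p → 1 ≤ q → Per x p α β →
    Per x q α β → α + p + q ≤ β → Per x (Nat.gcd p q) α β := by
  intro m
  induction m with
  | zero => intro p q α β h1 h2; omega
  | succ m ih =>
    have key : ∀ (p q α β : ℕ), p < q → p + q ≤ m + 1 → 1 ≤ p → 1 ≤ q → Per x p α β →
        Per x q α β → α + p + q ≤ β → Per x (Nat.gcd p q) α β := by
      intro p q α β hlt hm hp hq Hp Hq hl
      have H1 : Per x (q - p) α (β - p) := by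
        intro t ht hb
        have e1 := Hq t ht (by omega)
        have e2 := Hp (t + (q - p)) (by omega) (by omega)
        have : t + (q - p) + p = t + q := by omega
        rw [this] at e2
        rw [e1, e2]
      have H2 : Per x (Nat.gcd p (q - p)) α (β - p) :=
        ih p (q - p) α (β - p) (by omega) hp (by omega) (Hp.mono le_rfl (by omega)) H1 (by omega)
      have hg : Nat.gcd p (q - p) = Nat.gcd p q := Nat.gcd_sub_self_right hlt.le
      rw [hg] at H2
      exact per_extend Hp hp (Nat.gcd_dvd_left p q) H2 le_rfl (by omega) (by omega)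
    intro p q α β hm hp hq Hp Hq hl
    rcases lt_trichotomy p q with h | h | h
    · exact key p q α β h hm hp hq Hp Hq hl
    · subst h; simpa using Hp
    · rw [Nat.gcd_comm]
      exact key q p α β h (by omega) hq hp Hq Hp (by omega)

lemma occ_iff_per {x : ℕ → X} {a n s : ℕ} : Occ x a n (a + s) ↔ Per x s a (a + n + s) := by
  constructor
  · intro h t ht hb
    have := h (t - a) (by omega)
    have e1 : a + (t - a) = t := by omega
    have e2 : a + s + (t - a) = t + s := by omega
    rwa [e1, e2] at this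
  · intro h k hk
    have := h (a + k) (by omega) (by omega)
    have e : a + s + k = a + k + s := by omega
    rw [e]; exact this

/-- joining two intervals with the same period and a long overlap -/
lemma per_join {x : ℕ → X} {s α β α' β' : ℕ} (h1 : Per x s α β) (h2 : Per x s α' β')
    (h : α' + s ≤ β) : Per x s α β' := by
  intro t ht hb
  by_cases h3 : t + s < β
  · exact h1 t ht h3
  · exact h2 t (by omega) hb

lemma per_transport {x : ℕ → X} {P n a c : ℕ} (h : Per x P c (c + n))
    (hc : ∀ k < n, x (c + k) = x (a + k)) : Per x P a (a + n) := by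
  intro t ht hb
  obtain ⟨k, rfl⟩ := Nat.exists_eq_add_of_le ht
  have h1 := h (c + k) (by omega) (by omega)
  rw [hc k (by omega), show c + k + P = c + (k + P) by ring, hc (k + P) (by omega)] at h1
  rw [h1]; congr 1; ring

open Classical in
/-- the least positive shift of the block at `a` of length `n` (or `0`) -/
noncomputable def S (x : ℕ → X) (a n : ℕ) : ℕ :=
  if h : ∃ d, 1 ≤ d ∧ Occ x a n (a + d) then Nat.find h else 0

lemma S_spec {x : ℕ → X} {a n : ℕ} (h : ∃ d, 1 ≤ d ∧ Occ x a n (a + d)) :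
    1 ≤ S x a n ∧ Occ x a n (a + S x a n) := by
  classical
  unfold S
  rw [dif_pos h]
  exact Nat.find_spec h

lemma S_le {x : ℕ → X} {a n d : ℕ} (hd : 1 ≤ d) (h : Occ x a n (a + d)) : S x a n ≤ d := by
  classical
  unfold S
  have h' : ∃ d, 1 ≤ d ∧ Occ x a n (a + d) := ⟨d, hd, h⟩
  rw [dif_pos h']
  exact Nat.find_min' h' ⟨hd, h⟩

/-- the least shift divides every period that is short enough -/
lemma S_dvd {x : ℕ → X} {a n P : ℕ} (h : ∃ d, 1 ≤ d ∧ Occ x a n (a + d)) (hP : 1 ≤ P)
    (hper : Per x P a (a + n)) (hle : S x a n + P ≤ n) : S x a n ∣ P := by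
  obtain ⟨h1, h2⟩ := S_spec h
  set s := S x a n with hs
  have H2 : Per x s a (a + n + s) := occ_iff_per.1 h2
  have H3 : Per x (Nat.gcd s P) a (a + n) :=
    fine_wilf (s + P) s P a (a + n) le_rfl h1 hP (H2.mono le_rfl (by omega)) hper (by omega)
  have hg1 : 1 ≤ Nat.gcd s P := Nat.gcd_pos_of_pos_left _ (by omega)
  have hgs : Nat.gcd s P ∣ s := Nat.gcd_dvd_left _ _
  have H4 : Per x (Nat.gcd s P) a (a + n + s) :=
    per_extend H2 h1 hgs H3 le_rfl (by omega) (by omega)
  have hgle : Nat.gcd s P ≤ s := Nat.le_of_dvd (by omega) hgs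
  have H5 : Occ x a n (a + Nat.gcd s P) := occ_iff_per.2 (H4.mono le_rfl (by omega))
  have H6 : s ≤ Nat.gcd s P := by rw [hs]; exact S_le hg1 H5
  have : s = Nat.gcd s P := le_antisymm H6 hgle
  rw [this]; exact Nat.gcd_dvd_right _ _

end Pool.Agent.H249R4.Wd
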