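import Pool.Agent.H249R4.Wd1

/-! The core theorem: positions, lengths and pair occurrences. -/

namespace Pool.Agent.H249R4.Wd

variable {X : Type*}

/-- The logs argument: some `N j` is much larger than `a j`. -/
lemma step2 {a N : ℕ → ℕ} {C : ℕ} (hN : ∀ j, 1 ≤ N j) (hlo : ∀ j, a j + N j ≤ a (j + 1))
    (hhi : ∀ j, a (j + 1) ≤ a j + N j + C)
    (h1 : ∀ i j, Nat.log 2 (N i) % 8 = Nat.log 2 (N j) % 8)
    (h2 : ∀ i j, i < j → Nat.log 2 (N i + N j) % 8 = Nat.log 2 (N i) % 8) :
    ∃ j, 64 * a j ≤ N j := by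
  by_contra hcon
  push Not at hcon
  have ha : ∀ j, j ≤ a j := by
    intro j
    induction j with
    | zero => omega
    | succ j ih => have := hlo j; have := hN j; omega
  have hinj : ∀ i j, i < j → Nat.log 2 (N i) ≠ Nat.log 2 (N j) := by
    intro i j hij he
    have p1 := Nat.pow_log_le_self 2 (show N i ≠ 0 by have := hN i; omega)
    have p2 := Nat.pow_log_le_self 2 (show N j ≠ 0 by have := hN j; omega)
    have q1 := Nat.lt_pow_succ_log_self (b := 2) (by norm_num) (N i)
    have q2 := Nat.lt_pow_succ_log_self (b := 2) (by norm_num) (N j)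
    rw [← he] at p2 q2
    set e := Nat.log 2 (N i) with hedef
    have : Nat.log 2 (N i + N j) = e + 1 := by
      rw [Nat.log_eq_iff (by left; omega)]
      constructor
      · rw [pow_succ]; omega
      · rw [pow_succ]
        have : N i + N j < 2 ^ (e + 1) + 2 ^ (e + 1) := by
          have : e.succ = e + 1 := rfl
          omega
        omega
    have h3 := h2 i j hij
    rw [this, ← hedef] at h3
    omega
  set m := C + 1 with hm
  have hgrow : ∀ t, a (m + t) ≤ 2 ^ (7 * t) * a m := by
    intro t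
    induction t with
    | zero => simp
    | succ t ih =>
      have e1 := hhi (m + t)
      have e2 := hcon (m + t)
      have e3 := ha (m + t)
      have e4 : a (m + t + 1) ≤ 128 * a (m + t) := by omega
      have e5 : 2 ^ (7 * (t + 1)) = 128 * 2 ^ (7 * t) := by
        rw [Nat.mul_add, pow_add]; ring
      rw [← Nat.add_assoc, e5]
      calc a (m + t + 1) ≤ 128 * a (m + t) := e4
        _ ≤ 128 * (2 ^ (7 * t) * a m) := Nat.mul_le_mul_left _ ih
        _ = _ := by ring
  set E := a m with hE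
  have hlog : ∀ t, Nat.log 2 (N (m + t)) < 7 * (t + 1) + E := by
    intro t
    apply Nat.log_lt_of_lt_pow (by have := hN (m + t); omega)
    have e1 := hgrow (t + 1)
    have e2 := hlo (m + t)
    have e3 : E < 2 ^ E := Nat.lt_two_pow_self
    have e4 : N (m + t) ≤ a (m + (t + 1)) := by rw [← Nat.add_assoc]; omega
    calc N (m + t) ≤ 2 ^ (7 * (t + 1)) * E := e4.trans e1
      _ < 2 ^ (7 * (t + 1)) * 2 ^ E := Nat.mul_lt_mul_of_pos_left e3 (by positivity)
      _ = _ := by rw [pow_add]
  obtain ⟨t, ht, t', ht', hne, heq⟩ := Finset.exists_ne_map_eq_of_card_lt_of_maps_to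
    (s := Finset.range (E + 9)) (t := Finset.range (E + 8)) (by simp)
    (f := fun t => Nat.log 2 (N (m + t)) / 8) (by
      intro t ht
      have ht : t < E + 9 := by simpa using ht
      have := hlog t
      simp only [Finset.coe_range, Set.mem_Iio]
      omega)
  have h3 := h1 (m + t) (m + t')
  have h4 : Nat.log 2 (N (m + t)) / 8 = Nat.log 2 (N (m + t')) / 8 := heq
  have h5 : Nat.log 2 (N (m + t)) = Nat.log 2 (N (m + t')) := by omega
  rcases lt_or_gt_of_ne hne with h | h
  · exact hinj _ _ (by omega) h5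
  · exact hinj _ _ (by omega) h5.symm

/-- The data of a good sequence: only single blocks and pair products are used. -/
structure Dat (x : ℕ → X) (C : ℕ) (a N : ℕ → ℕ) (c : ℕ → ℕ → ℕ) : Prop where
  hN : ∀ j, 1 ≤ N j
  hF : ∀ j, First x (a j) (N j)
  hlo : ∀ j, a j + N j ≤ a (j + 1)
  hhi : ∀ j, a (j + 1) ≤ a j + N j + C
  hc1 : ∀ i j, i < j → ∀ k < N i, x (c i j + k) = x (a i + k)
  hc2 : ∀ i j, i < j → ∀ k < N j, x (c i j + N i + k) = x (a j + k)
  g1 : ∀ j, 64 * a j ≤ N j
  g2 : ∀ i j, i < j → 64 * c i j ≤ N i + N j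

namespace Dat

variable {x : ℕ → X} {C : ℕ} {a N : ℕ → ℕ} {c : ℕ → ℕ → ℕ}

lemma a_ge (H : Dat x C a N c) : ∀ j, j ≤ a j := by
  intro j
  induction j with
  | zero => omega
  | succ j ih => have := H.hlo j; have := H.hN j; omega

lemma a_mono (H : Dat x C a N c) : Monotone a :=
  monotone_nat_of_le_succ (fun j => by have := H.hlo j; omega)

lemma aN_le (H : Dat x C a N c) {i j : ℕ} (h : i < j) : a i + N i ≤ a j :=
  (H.hlo i).trans (H.a_mono h)

lemma N_le (H : Dat x C a N c) {i j : ℕ} (h : i < j) : N i ≤ a j := by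
  have := H.aN_le h; omega

lemma N_grow (H : Dat x C a N c) {i j : ℕ} (h : i < j) : 64 * N i ≤ N j := by
  have := H.N_le h; have := H.g1 j; omega

lemma big (H : Dat x C a N c) {j : ℕ} (h : C ≤ j) : 64 * C ≤ N j ∧ 32 * a (j + 1) ≤ 33 * N j := by
  have h1 := H.a_ge j
  have h2 := H.g1 j
  have h3 := H.hhi j
  omega

lemma occ_c (H : Dat x C a N c) {i j : ℕ} (h : i < j) :
    Occ x (a j) (N j) (c i j + N i) := fun k hk => (H.hc2 i j h k hk).symm

lemma D_nonneg (H : Dat x C a N c) {i j : ℕ} (h : i < j) : a j ≤ c i j + N i := by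
  by_contra hlt
  exact H.hF j _ (by omega) (H.occ_c h)

/-- step 4: without short shifts everything is tight -/
lemma tight (H : Dat x C a N c)
    (h3 : ∀ j, ¬ ∃ d, 1 ≤ d ∧ 32 * d ≤ N j ∧ Occ x (a j) (N j) (a j + d)) :
    (∀ i j, i < j → c i j + N i = a j) ∧ (∀ j, C + 1 ≤ j → a (j + 1) = a j + N j) := by
  have hD : ∀ i j, i < j → c i j + N i = a j := by
    intro i j hij
    have h1 := H.D_nonneg hij
    by_contra hne
    have h2 := H.g2 i j hij
    have h4 := H.N_grow hij
    have h5 := H.N_le hij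
    apply h3 j
    refine ⟨c i j + N i - a j, by omega, by omega, ?_⟩
    rw [show a j + (c i j + N i - a j) = c i j + N i by omega]
    exact H.occ_c hij
  refine ⟨hD, fun j hj => ?_⟩
  have h1 := H.hlo j
  have h2 := H.hhi j
  by_contra hne
  have h4 := H.big (j := j) (by omega)
  apply h3 j
  refine ⟨a (j + 1) - (a j + N j), by omega, by omega, ?_⟩
  have h5 := hD j (j + 1) (by omega)
  intro k hk
  have h6 := H.hc1 j (j + 1) (by omega) k hk
  rw [← h6]
  congr 1
  omega

section f3

variable (H : Dat x C a N c)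
  (h3 : ∀ j, ∃ d, 1 ≤ d ∧ 32 * d ≤ N j ∧ Occ x (a j) (N j) (a j + d))
  (h3' : ∀ i j, i < j → ∃ d, 1 ≤ d ∧ 32 * d ≤ N i + N j ∧
    Occ x (c i j) (N i + N j) (c i j + d))

include h3 in
lemma s_ex (j : ℕ) : ∃ d, 1 ≤ d ∧ Occ x (a j) (N j) (a j + d) := by
  obtain ⟨d, h1, _, h2⟩ := h3 j; exact ⟨d, h1, h2⟩

include h3 in
lemma s_small (j : ℕ) : 1 ≤ S x (a j) (N j) ∧ 32 * S x (a j) (N j) ≤ N j := by
  obtain ⟨d, h1, h2, h4⟩ := h3 j
  have := S_le h1 h4
  have := (S_spec (s_ex h3 j)).1
  omega

include h3 in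
lemma s_per (j : ℕ) : Per x (S x (a j) (N j)) (a j) (a j + N j + S x (a j) (N j)) :=
  occ_iff_per.1 (S_spec (s_ex h3 j)).2

include h3' in
lemma sc_ex {i j : ℕ} (hij : i < j) :
    ∃ d, 1 ≤ d ∧ Occ x (c i j) (N i + N j) (c i j + d) := by
  obtain ⟨d, h1, _, h2⟩ := h3' i j hij; exact ⟨d, h1, h2⟩

include h3' in
lemma sc_small {i j : ℕ} (hij : i < j) : 1 ≤ S x (c i j) (N i + N j) ∧
    32 * S x (c i j) (N i + N j) ≤ N i + N j := by
  obtain ⟨d, h1, h2, h4⟩ := h3' i j hij
  have := S_le h1 h4
  have := (S_spec (sc_ex h3' hij)).1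
  omega

include h3' in
lemma sc_per {i j : ℕ} (hij : i < j) : Per x (S x (c i j) (N i + N j)) (c i j)
    (c i j + (N i + N j) + S x (c i j) (N i + N j)) :=
  occ_iff_per.1 (S_spec (sc_ex h3' hij)).2

include H h3 h3' in
/-- the shift of a pair product is the shift of its last block -/
lemma sc_eq {i j : ℕ} (hij : i < j) : S x (c i j) (N i + N j) = S x (a j) (N j) := by
  obtain ⟨hs1, hs2⟩ := s_small h3 j
  obtain ⟨ht1, ht2⟩ := sc_small h3' hij
  have hper := sc_per h3' hij
  set s := S x (a j) (N j) with hs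
  set t := S x (c i j) (N i + N j) with ht
  have hg := H.N_grow hij
  -- `t` is a period of the block `u_j`
  have P1 : Per x t (a j) (a j + N j) :=
    per_transport (hper.mono (α' := c i j + N i) (β' := c i j + N i + N j) (by omega) (by omega))
      (H.hc2 i j hij)
  have hdvd : s ∣ t := by
    rw [hs]; exact S_dvd (s_ex h3 j) ht1 P1 (by omega)
  have P2 : Per x s (c i j + N i) (c i j + N i + N j) :=
    per_transport ((s_per h3 j).mono (β' := a j + N j) le_rfl (by omega))
      (fun k hk => (H.hc2 i j hij k hk).symm)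
  have P3 : Per x s (c i j) (c i j + (N i + N j) + t) :=
    per_extend hper ht1 hdvd P2 (by omega) (by omega) (by omega)
  have hst : s ≤ t := Nat.le_of_dvd (by omega) hdvd
  have hts : t ≤ s := S_le hs1 (occ_iff_per.2 (P3.mono le_rfl (by omega)))
  omega

include H h3 h3' in
lemma s_dvd_D {i j : ℕ} (hij : i < j) (hD : a j < c i j + N i) :
    S x (a j) (N j) ∣ c i j + N i - a j := by
  obtain ⟨hs1, hs2⟩ := s_small h3 j
  have hg := H.N_grow hij
  have hg2 := H.g2 i j hij
  have hle := H.N_le hij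
  apply S_dvd (s_ex h3 j) (by omega)
  · have : Occ x (a j) (N j) (a j + (c i j + N i - a j)) := by
      rw [show a j + (c i j + N i - a j) = c i j + N i by omega]
      exact H.occ_c hij
    exact (occ_iff_per.1 this).mono le_rfl (by omega)
  · omega

include H h3 h3' in
/-- case f4 true -/
lemma tA (h4 : ∀ j, 4 * S x (a j) (N j) ≤ a j) : False := by
  -- `s` is constant from `C` on
  have hconst : ∀ i, C ≤ i → S x (a (i + 1)) (N (i + 1)) = S x (a i) (N i) := by
    intro i hi
    obtain ⟨hs1, hs2⟩ := s_small h3 i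
    obtain ⟨ht1, ht2⟩ := s_small h3 (i + 1)
    have hsc := sc_eq H h3 h3' (Nat.lt_succ_self i)
    have hper := sc_per h3' (Nat.lt_succ_self i)
    rw [hsc] at hper
    have hb := H.big hi
    have h4' := h4 (i + 1)
    have e0 : N i.succ = N (i + 1) := rfl
    have e1 : a i.succ = a (i + 1) := rfl
    rw [e0, e1] at hper hsc
    set s := S x (a i) (N i) with hs
    set t := S x (a (i + 1)) (N (i + 1)) with ht
    set c' := c i i.succ with hc'
    have P1 : Per x t (a i) (a i + N i) :=
      per_transport (hper.mono (α' := c') (β' := c' + N i) (by omega)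
        (by omega)) (H.hc1 i i.succ (Nat.lt_succ_self i))
    have hdvd : s ∣ t := by
      rw [hs]; exact S_dvd (s_ex h3 i) ht1 P1 (by omega)
    have P2 : Per x s c' (c' + N i) :=
      per_transport ((s_per h3 i).mono (β' := a i + N i) le_rfl (by omega))
        (fun k hk => (H.hc1 i i.succ (Nat.lt_succ_self i) k hk).symm)
    have P3 : Per x s c' (c' + (N i + N (i + 1)) + t) :=
      per_extend hper ht1 hdvd P2 (by omega) (by omega) (by omega)
    have hst : s ≤ t := Nat.le_of_dvd (by omega) hdvd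
    have hts : S x c' (N i + N (i + 1)) ≤ s :=
      S_le hs1 (occ_iff_per.2 (P3.mono le_rfl (by omega)))
    omega
  -- now look at `i = C`, `j = C + 1`, `C + 2`
  set i := C with hi
  have hj : i < i + 1 := by omega
  obtain ⟨hs1, hs2⟩ := s_small h3 (i + 1)
  have hsc := sc_eq H h3 h3' hj
  have hper := sc_per h3' hj
  rw [hsc] at hper
  have hc1 := hconst i le_rfl
  have hc2 := hconst (i + 1) (by omega)
  have hs3 := (s_small h3 i).2
  have hs4 := (s_small h3 (i + 2)).2
  have hperj := s_per h3 (i + 1)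
  have hperj' := s_per h3 (i + 2)
  have hF := H.hF (i + 1)
  have hF' := H.hF (i + 2)
  have hD := H.D_nonneg hj
  have hgr := H.N_grow hj
  have hg2 := H.g2 i (i + 1) hj
  have hle := H.N_le hj
  have hb := H.big (le_refl C)
  have hhi := H.hhi (i + 1)
  have hlo := H.hlo (i + 1)
  have e2 : i + 1 + 1 = i + 2 := rfl
  rw [e2] at hc2 hhi hlo
  rw [← hi] at hb
  rw [hc2] at hperj' hs4
  set s := S x (a (i + 1)) (N (i + 1)) with hs
  -- the block `u_j` starts less than `s` after `c`
  have k1 : a (i + 1) < c i (i + 1) + s := by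
    by_contra hle'
    push Not at hle'
    apply hF (a (i + 1) - s) (by omega)
    intro k hk
    have := hper (a (i + 1) - s + k) (by omega) (by omega)
    rw [this]; congr 1; omega
  set D := c i (i + 1) + N i - a (i + 1) with hDdef
  have k2 : N i < D + s := by omega
  -- the period continues to `a_j + N_j + D`
  have k3 : Per x s (a (i + 1)) (a (i + 1) + N (i + 1) + D) := by
    refine per_join hperj (hper.mono (α' := c i (i + 1) + N i) (by omega) ?_) ?_
    · omega
    · omega
  have k4 : Per x s (a (i + 1)) (a (i + 2) + N (i + 2) + s) := by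
    refine per_join k3 hperj' ?_
    omega
  apply hF' (a (i + 2) - s) (by omega)
  intro k hk
  have := k4 (a (i + 2) - s + k) (by omega) (by omega)
  rw [this]; congr 1; omega

include H h3 h3' in
/-- case f4 false -/
lemma tB (h4 : ∀ j, a j < 4 * S x (a j) (N j))
    (h5 : ∀ i j, i < j → (8 * (N i + N j) / S x (c i j) (N i + N j)) % 64 =
      (8 * N j / S x (a j) (N j)) % 64)
    (h6 : ∀ i j, i < j → 2 * a j < S x (a j) (N j) →
      2 * c i j < S x (c i j) (N i + N j)) :
    (∀ i j, i < j → C + 1 ≤ j → c i j + N i = a j) ∧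
      (∀ j, C + 1 ≤ j → a (j + 1) = a j + N j) := by
  have k1 : ∀ i j, i < j → 8 * N i < S x (a j) (N j) := by
    intro i j hij
    have q := h5 i j hij
    rw [sc_eq H h3 h3' hij] at q
    have hs := (s_small h3 j).1
    have hle := H.N_le hij
    have h4' := h4 j
    set s := S x (a j) (N j) with hsd
    by_contra hcon
    push Not at hcon
    have u1 : 8 * N j / s + 1 ≤ 8 * (N i + N j) / s := by
      rw [Nat.le_div_iff_mul_le (by omega), Nat.add_mul]
      have := Nat.div_mul_le_self (8 * N j) s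
      omega
    have u2 : 8 * (N i + N j) / s < 8 * N j / s + 1 + 32 := by
      rw [Nat.div_lt_iff_lt_mul (by omega), Nat.add_mul]
      have := Nat.lt_div_mul_add (a := 8 * N j) (b := s) (by omega)
      rw [Nat.add_mul]
      omega
    omega
  have k2 : ∀ j, C + 1 ≤ j → 2 * a j < S x (a j) (N j) := by
    intro j hj
    obtain ⟨i, rfl⟩ : ∃ i, j = i + 1 := ⟨j - 1, by omega⟩
    have := k1 i (i + 1) (by omega)
    have := H.big (j := i) (by omega)
    omega
  have hD : ∀ i j, i < j → C + 1 ≤ j → c i j + N i = a j := by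
    intro i j hij hj
    by_contra hne
    have h7 := H.D_nonneg hij
    have h8 := Nat.le_of_dvd (by omega) (s_dvd_D H h3 h3' hij (by omega))
    have h9 := h6 i j hij (k2 j hj)
    rw [sc_eq H h3 h3' hij] at h9
    have := H.N_le hij
    omega
  refine ⟨hD, fun j hj => ?_⟩
  have h1 := H.hlo j
  have h2 := H.hhi j
  by_contra hne
  have h5' := hD j (j + 1) (by omega) (by omega)
  have hocc : Occ x (a j) (N j) (a j + (a (j + 1) - (a j + N j))) := by
    intro k hk
    have h6 := H.hc1 j (j + 1) (by omega) k hk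
    rw [← h6]
    congr 1
    omega
  have h7 := S_le (by omega) hocc
  have h8 := k1 (j - 1) j (by omega)
  have h9 := H.big (j := j - 1) (by omega)
  omega

end f3

/-- steps 6 and 7 -/
lemma final (H : Dat x C a N c) (n₀ : ℕ) (hn₀ : C ≤ n₀)
    (hD : ∀ i j, i < j → n₀ ≤ j → c i j + N i = a j)
    (hg : ∀ j, n₀ ≤ j → a (j + 1) = a j + N j)
    (h8 : (∃ j ℓ, n₀ + 1 ≤ j ∧ a j ≤ 2 * ℓ ∧ ℓ ≤ a j ∧ ∀ k < ℓ, x (a j - 1 - k) = x (a j + N j - 1 - k)) →
      ∀ i j, i < j → ∃ ℓ, c i j ≤ 2 * ℓ ∧ ℓ ≤ c i j ∧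
        ∀ k < ℓ, x (c i j - 1 - k) = x (c i j + (N i + N j) - 1 - k)) :
    ∃ p, 1 ≤ p ∧ ∃ T, ∀ t, T ≤ t → x (t + p) = x t := by
  -- the suffix fact for single blocks
  have s1 : ∀ j, n₀ + 1 ≤ j → ∀ k < N (j - 1), x (a j - 1 - k) = x (a j + N j - 1 - k) := by
    intro j hj k hk
    obtain ⟨i, rfl⟩ : ∃ i, j = i + 1 := ⟨j - 1, by omega⟩
    simp only [Nat.add_sub_cancel] at hk ⊢
    have e1 := hg i (by omega)
    have e2 := hg (i + 1) (by omega)
    have e3 := hD i (i + 1 + 1) (by omega) (by omega)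
    have e4 := H.hc1 i (i + 1 + 1) (by omega) (N i - 1 - k) (by omega)
    rw [show c i (i + 1 + 1) + (N i - 1 - k) = a (i + 1) + N (i + 1) - 1 - k by omega,
      show a i + (N i - 1 - k) = a (i + 1) - 1 - k by omega] at e4
    exact e4.symm
  have s2 : ∀ j, n₀ + 1 ≤ j → a j ≤ 2 * N (j - 1) ∧ N (j - 1) ≤ a j := by
    intro j hj
    obtain ⟨i, rfl⟩ : ∃ i, j = i + 1 := ⟨j - 1, by omega⟩
    simp only [Nat.add_sub_cancel]
    have := (H.big (j := i) (by omega)).2
    have := H.N_le (Nat.lt_succ_self i)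
    have e1 : a i.succ = a (i + 1) := rfl
    omega
  have h8' := h8 ⟨n₀ + 1, N (n₀ + 1 - 1), le_rfl, (s2 _ le_rfl).1, (s2 _ le_rfl).2,
    s1 _ le_rfl⟩
  -- the star
  have star : ∀ i j, i < j → n₀ + 1 ≤ j → ∀ k, 2 * k + 2 + N i ≤ a j →
      x (a j - N i - 1 - k) = x (a j - 1 - k) := by
    intro i j hij hj k hk
    obtain ⟨ℓ, l1, l2, l3⟩ := h8' i j hij
    have e1 := hD i j hij (by omega)
    have e2 := s2 j hj
    have e3 := l3 k (by omega)
    have e4 := s1 j hj k (by omega)
    rw [show c i j + (N i + N j) - 1 - k = a j + N j - 1 - k by omega, ← e4,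
      show c i j - 1 - k = a j - N i - 1 - k by omega] at e3
    exact e3
  -- the period
  set i := n₀ with hi
  refine ⟨N i, H.hN i, a (i + 1), ?_⟩
  intro t ht
  -- locate `t`
  obtain ⟨k, hk1, hk2, hk3⟩ : ∃ k, i + 1 ≤ k ∧ a k ≤ t ∧ t < a (k + 1) := by
    have hex : ∃ k, t < a (k + 1) := ⟨t, by have := H.a_ge (t + 1); omega⟩
    classical
    refine ⟨Nat.find hex, ?_, ?_, Nat.find_spec hex⟩
    · by_contra hlt
      push Not at hlt
      have h1 := Nat.find_spec hex
      have h2 : a (Nat.find hex + 1) ≤ a (i + 1) := H.a_mono (by omega)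
      omega
    · rcases Nat.eq_zero_or_pos (Nat.find hex) with h0 | hpos
      · rw [h0]
        have h1 := Nat.find_spec hex
        rw [h0] at h1
        have h2 : a (0 + 1) ≤ a (i + 1) := H.a_mono (by omega)
        omega
      · have h1 := Nat.find_min hex (m := Nat.find hex - 1) (by omega)
        rw [show Nat.find hex - 1 + 1 = Nat.find hex by omega] at h1
        omega
  have b1 := hg k (by omega)
  have b2 := hg (k + 1) (by omega)
  rw [show k + 1 + 1 = k + 2 from rfl] at b2
  have g1 : 64 * a (k + 2) ≤ a (k + 3) := by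
    have := H.g1 (k + 2)
    have := H.N_le (show k + 2 < k + 3 by omega)
    omega
  have g2 : 64 * a (k + 1) ≤ a (k + 2) := by
    have := H.g1 (k + 1)
    have := H.N_le (show k + 1 < k + 2 by omega)
    omega
  have g3 : N i ≤ a k := H.N_le (by omega)
  have g4 : a k ≤ N k := by have := H.g1 k; omega
  -- `x t = x P`
  have c1 := hD k (k + 3) (by omega) (by omega)
  have c2 := hD (k + 1) (k + 3) (by omega) (by omega)
  have d1 := H.hc1 k (k + 3) (by omega) (t - a k) (by omega)
  rw [show c k (k + 3) + (t - a k) = a (k + 3) - a (k + 1) + t by omega,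
    show a k + (t - a k) = t by omega] at d1
  by_cases hcase : t + N i < a (k + 1)
  · have d2 := H.hc1 k (k + 3) (by omega) (t + N i - a k) (by omega)
    rw [show c k (k + 3) + (t + N i - a k) = a (k + 3) - a (k + 1) + t + N i by omega,
      show a k + (t + N i - a k) = t + N i by omega] at d2
    have d3 := star i (k + 3) (by omega) (by omega) (a (k + 1) - t - N i - 1) (by omega)
    rw [show a (k + 3) - N i - 1 - (a (k + 1) - t - N i - 1) = a (k + 3) - a (k + 1) + t by omega,
      show a (k + 3) - 1 - (a (k + 1) - t - N i - 1) = a (k + 3) - a (k + 1) + t + N i by omega]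
      at d3
    rw [← d2, ← d1, d3]
  · push Not at hcase
    obtain ⟨r, hr⟩ : ∃ r, t + N i = a (k + 1) + r := ⟨t + N i - a (k + 1), by omega⟩
    have d2 := H.hc1 (k + 1) (k + 3) (by omega) r (by omega)
    rw [← hr] at d2
    have d3 := star i (k + 3) (by omega) (by omega) (N (k + 1) - r - 1) (by omega)
    have d4 := star (k + 1) (k + 3) (by omega) (by omega) (N i - r - 1) (by omega)
    rw [← d2, ← d1]
    rw [show a (k + 3) - N i - 1 - (N (k + 1) - r - 1) =
        a (k + 3) - N (k + 1) - 1 - (N i - r - 1) by omega] at d3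
    rw [show c (k + 1) (k + 3) + r = a (k + 3) - 1 - (N (k + 1) - r - 1) by omega,
      ← d3, d4]
    congr 1
    omega

end Dat

end Pool.Agent.H249R4.Wd
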