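import Pool.Agent.H249R4.Wd2

/-! The colour of a block and the contradiction. -/

namespace Pool.Agent.H249R4.Wd

variable {X : Type*}

/-- short shift -/
def f3 (x : ℕ → X) (a n : ℕ) : Prop := ∃ d, 1 ≤ d ∧ 32 * d ≤ n ∧ Occ x a n (a + d)

/-- suffix feature -/
def f8 (x : ℕ → X) (a n : ℕ) : Prop :=
  ∃ ℓ, a ≤ 2 * ℓ ∧ ℓ ≤ a ∧ ∀ k < ℓ, x (a - 1 - k) = x (a + n - 1 - k)

/-- the colours -/
abbrev K0 : Type := Fin 8 × Bool × Bool × Bool × Fin 64 × Bool × Bool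

open Classical in
/-- the colour of the block at `a` of length `n` -/
noncomputable def F (x : ℕ → X) (a n : ℕ) : K0 :=
  (⟨Nat.log 2 n % 8, Nat.mod_lt _ (by norm_num)⟩, decide (64 * a ≤ n), decide (f3 x a n),
    decide (4 * S x a n ≤ a), ⟨(8 * n / S x a n) % 64, Nat.mod_lt _ (by norm_num)⟩,
    decide (2 * a < S x a n), decide (f8 x a n))

lemma F_eq {x : ℕ → X} {a n a' n' : ℕ} (h : F x a n = F x a' n') :
    Nat.log 2 n % 8 = Nat.log 2 n' % 8 ∧ (64 * a ≤ n ↔ 64 * a' ≤ n') ∧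
    (f3 x a n ↔ f3 x a' n') ∧ (4 * S x a n ≤ a ↔ 4 * S x a' n' ≤ a') ∧
    (8 * n / S x a n) % 64 = (8 * n' / S x a' n') % 64 ∧
    (2 * a < S x a n ↔ 2 * a' < S x a' n') ∧ (f8 x a n ↔ f8 x a' n') := by
  classical
  unfold F at h
  simp only [Prod.mk.injEq, Fin.mk.injEq, decide_eq_decide] at h
  exact h

theorem core (x : ℕ → X) (C : ℕ) (a N : ℕ → ℕ) (c : ℕ → ℕ → ℕ)
    (hN : ∀ j, 1 ≤ N j)
    (hF : ∀ j, First x (a j) (N j))
    (hlo : ∀ j, a j + N j ≤ a (j + 1))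
    (hhi : ∀ j, a (j + 1) ≤ a j + N j + C)
    (hc1 : ∀ i j, i < j → ∀ k < N i, x (c i j + k) = x (a i + k))
    (hc2 : ∀ i j, i < j → ∀ k < N j, x (c i j + N i + k) = x (a j + k))
    (κ : K0) (hκ : ∀ j, F x (a j) (N j) = κ)
    (hκ' : ∀ i j, i < j → F x (c i j) (N i + N j) = κ) : False := by
  have E1 : ∀ i j, F x (a i) (N i) = F x (a j) (N j) := fun i j => by rw [hκ, hκ]
  have E2 : ∀ i j, i < j → ∀ k, F x (c i j) (N i + N j) = F x (a k) (N k) :=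
    fun i j hij k => by rw [hκ, hκ' i j hij]
  have g0 : ∃ j, 64 * a j ≤ N j := by
    refine step2 (C := C) hN hlo hhi (fun i j => (F_eq (E1 i j)).1) ?_
    intro i j hij
    exact (F_eq (E2 i j hij i)).1
  obtain ⟨j0, hj0⟩ := g0
  have g1 : ∀ j, 64 * a j ≤ N j := fun j => (F_eq (E1 j0 j)).2.1.1 hj0
  have g2 : ∀ i j, i < j → 64 * c i j ≤ N i + N j :=
    fun i j hij => (F_eq (E2 i j hij j0)).2.1.2 hj0
  have H : Dat x C a N c := ⟨hN, hF, hlo, hhi, hc1, hc2, g1, g2⟩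
  have H2 : (∀ i j, i < j → C + 1 ≤ j → c i j + N i = a j) ∧
      (∀ j, C + 1 ≤ j → a (j + 1) = a j + N j) := by
    by_cases h3 : f3 x (a 0) (N 0)
    · have h3a : ∀ j, f3 x (a j) (N j) := fun j => (F_eq (E1 0 j)).2.2.1.1 h3
      have h3b : ∀ i j, i < j → f3 x (c i j) (N i + N j) :=
        fun i j hij => (F_eq (E2 i j hij 0)).2.2.1.2 h3
      by_cases h4 : 4 * S x (a 0) (N 0) ≤ a 0
      · exact (Dat.tA H h3a h3b (fun j => (F_eq (E1 0 j)).2.2.2.1.1 h4)).elim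
      · refine Dat.tB H h3a h3b (fun j => ?_) (fun i j hij => ?_) (fun i j hij h => ?_)
        · by_contra hcon
          push Not at hcon
          exact h4 ((F_eq (E1 0 j)).2.2.2.1.2 hcon)
        · exact (F_eq (E2 i j hij j)).2.2.2.2.1
        · exact (F_eq (E2 i j hij j)).2.2.2.2.2.1.2 h
    · have h3a : ∀ j, ¬ f3 x (a j) (N j) := fun j h => h3 ((F_eq (E1 0 j)).2.2.1.2 h)
      obtain ⟨t1, t2⟩ := Dat.tight H h3a
      exact ⟨fun i j hij _ => t1 i j hij, t2⟩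
  obtain ⟨p, hp, T, hT⟩ := Dat.final H (C + 1) (by omega) H2.1 H2.2 (by
    rintro ⟨j, ℓ, _, l1, l2, l3⟩ i' j' hij
    exact (F_eq (E2 i' j' hij j)).2.2.2.2.2.2.2 ⟨ℓ, l1, l2, l3⟩)
  -- an eventually periodic word has no far first occurrences
  have h1 := H.a_ge (T + p)
  apply hF (T + p) (a (T + p) - p) (by omega)
  intro k hk
  have := hT (a (T + p) - p + k) (by omega)
  rw [← this]
  congr 1
  omega

end Pool.Agent.H249R4.Wd
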